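import Pool.Agent.Q252.DF5

/-!
# Sign changes of the differences of the number of distinct `{p,q}`-smooth representations
-/

set_option autoImplicit false

namespace Pool.Agent.Results.MP_b44203_nt.SignChanges

/-- `A_{p,q} = {p^α q^β : α, β ≥ 0}` -/
def A (p q : ℕ) : Set ℕ := {s | ∃ α β : ℕ, s = p ^ α * q ^ β}

/-- `f_{p,q}(n)`: the number of finite subsets of `A_{p,q}` with sum `n` -/
noncomputable def f (p q n : ℕ) : ℕ :=
  Nat.card {S : Finset ℕ // (∀ s ∈ S, s ∈ A p q) ∧ ∑ s ∈ S, s = n}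

theorem f_eq {p q : ℕ} (hp : 2 < p) (hq : 2 < q) (hc : Nat.Coprime p q) (n : ℕ) :
    f p q n = Q252.DF.f p q n := by
  classical
  unfold f Q252.DF.f Q252.DF.cnt
  symm
  have hinj := Q252.DF.el_inj hp hq hc
  apply Nat.card_congr
  refine Equiv.ofBijective (fun T => ⟨T.1.map ⟨Q252.DF.el p q, hinj⟩, ?_, ?_⟩) ⟨?_, ?_⟩
  · intro s hs
    rw [Finset.mem_map] at hs
    obtain ⟨⟨a, b⟩, _, rfl⟩ := hs
    exact ⟨a, b, rfl⟩
  · rw [Finset.sum_map]
    exact T.2
  · rintro ⟨T, hT⟩ ⟨T', hT'⟩ h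
    have h1 := congrArg Subtype.val h
    simp only at h1
    exact Subtype.ext (Finset.map_injective _ h1)
  · rintro ⟨S, hS, hSn⟩
    have h1 : (S.preimage (Q252.DF.el p q) hinj.injOn).map ⟨Q252.DF.el p q, hinj⟩ = S := by
      ext s
      rw [Finset.mem_map]
      constructor
      · rintro ⟨i, hi, rfl⟩
        rw [Finset.mem_preimage] at hi
        exact hi
      · intro hs
        obtain ⟨a, b, rfl⟩ := hS s hs
        exact ⟨(a, b), by rw [Finset.mem_preimage]; exact hs, rfl⟩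
    refine ⟨⟨S.preimage (Q252.DF.el p q) hinj.injOn, ?_⟩, Subtype.ext h1⟩
    rw [← h1, Finset.sum_map] at hSn
    exact hSn

/-- **Main result.**  For all coprime `q > p > 2` the difference `f_{p,q}(n+1) - f_{p,q}(n)` is
positive for infinitely many `n` and negative for infinitely many `n`. -/
theorem result (p q : ℕ) (hp : 2 < p) (hpq : p < q) (hc : Nat.Coprime p q) :
    {n : ℕ | 1 ≤ n ∧ f p q n < f p q (n + 1)}.Infinite ∧
      {n : ℕ | 1 ≤ n ∧ f p q (n + 1) < f p q n}.Infinite := by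
  have hq : 2 < q := by omega
  constructor
  · rw [Set.infinite_iff_exists_gt]
    intro N
    obtain ⟨n, hn, h⟩ := Q252.DF.not_anti hp hq hc (N + 1)
    refine ⟨n, ⟨by omega, ?_⟩, by omega⟩
    rw [f_eq hp hq hc, f_eq hp hq hc]
    exact h
  · rw [Set.infinite_iff_exists_gt]
    intro N
    obtain ⟨n, hn, h⟩ := Q252.DF.not_mono hp hq hc (N + 1)
    refine ⟨n, ⟨by omega, ?_⟩, by omega⟩
    rw [f_eq hp hq hc, f_eq hp hq hc]
    exact h

end Pool.Agent.Results.MP_b44203_nt.SignChanges
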